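import Pool.Agent.Run7.h278.LG.TayZ

set_option autoImplicit false

/-!
# Close ordinates, the order of the smallest gaps, and the order of an expansion of a mean square of primes

Let `b(u) = e^(u/2) (∑_{n ≤ e^u} Λ(n) (1/n - e^(-u)) - u + 1 + γ) - log (2π) e^(-u/2) + ∑_k e^(-(2k+5/2)u) / ((2k+2)(2k+3))`
and `V δ = δ ∫_0^∞ e^(-δ u) b(u)² du`.  Let `Exp c` say that `V` is finite and agrees with a polynomial in `δ²` up to
`O(δ^c)` for `0 < δ < 1`.  Then `Exp c` implies the Riemann hypothesis and that the weighted number of pairs of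
ordinates with `0 < t' - t ≤ δ` is `O(δ^c)`; the converse holds if `c` is not an even integer.  On the Riemann hypothesis
the number `α = liminf log (γ_(n+1) - γ_n) / log n` is at least `-4 / c` if `Exp c` holds and all but finitely many zeros
are simple, and at most `-3 / c` if `Exp c` fails, for every `c > 0`.
-/

namespace Pool.Agent.Results.MP_af3d17_nt.CloseOrdinates

open Filter Topology MeasureTheory Set Run7.h278.LM Run7.h278.WL Run7.h278.LG
open scoped ENNReal

/-- the positive ordinates of the zeros on the critical line -/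
def Γ : Set ℝ := {t : ℝ | 0 < t ∧ riemannZeta (1 / 2 + Complex.I * t) = 0}

/-- the weight `m / (1/4 + t²)` of the zero `1/2 + i t` of multiplicity `m` -/
noncomputable def w (t : Γ) : ℝ := (analyticOrderNatAt riemannZeta (1 / 2 + Complex.I * (t : ℝ)) : ℝ) / (1 / 4 + (t : ℝ) ^ 2)

open Classical in
/-- the product of the weights of a pair with `0 < t' - t ≤ v`, else `0` -/
noncomputable def pair (v : ℝ) (p : Γ × Γ) : ℝ := if (p.1 : ℝ) < p.2 ∧ (p.2 : ℝ) - p.1 ≤ v then w p.1 * w p.2 else 0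

/-- the weighted number of pairs with `0 < t' - t ≤ v` is `O(v^c)` -/
def Pairs (c : ℝ) : Prop := ∃ C : ℝ, ∀ v : ℝ, 0 < v → v < 1 → ∑' p : Γ × Γ, pair v p ≤ C * v ^ c

/-- the remainder in the mean value of the von Mangoldt function, at `x = e^u`, without the terms of the trivial zeros -/
noncomputable def b (u : ℝ) : ℝ :=
  Real.exp (u / 2) * (∑ n ∈ Finset.Icc 1 ⌊Real.exp u⌋₊, ArithmeticFunction.vonMangoldt n * (1 / (n : ℝ) - Real.exp (-u)) -
    u + 1 + Real.eulerMascheroniConstant) - Real.log (2 * Real.pi) * Real.exp (-u / 2) +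
    ∑' k : ℕ, 1 / ((2 * (k : ℝ) + 2) * (2 * k + 3)) * Real.exp (-(2 * k + 5 / 2) * u)

/-- the Abel mean of `b(u)²` -/
noncomputable def V (δ : ℝ) : ℝ≥0∞ := ∫⁻ u in Ioi (0 : ℝ), ENNReal.ofReal (δ * Real.exp (-δ * u) * b u ^ 2)

/-- `V` is finite and agrees with a polynomial in `δ²` up to `O(δ^c)` -/
def Exp (c : ℝ) : Prop := ∃ (q : Polynomial ℝ) (C : ℝ), ∀ δ : ℝ, 0 < δ → δ < 1 → V δ < ⊤ ∧ |(V δ).toReal - q.eval (δ ^ 2)| ≤ C * δ ^ c

/-- all but finitely many of the zeros in the upper half plane are simple -/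
def Simple : Prop := {s : ℂ | 0 < s.im ∧ riemannZeta s = 0 ∧ analyticOrderNatAt riemannZeta s ≠ 1}.Finite

/-- `γ 0 ≤ γ 1 ≤ ...` are the ordinates of the zeros in the upper half plane, repeated according to multiplicity -/
def Ordinates (γ : ℕ → ℝ) : Prop := Monotone γ ∧ (∀ n, 0 < γ n) ∧
  ∀ t : ℝ, 0 < t → {n | γ n = t}.encard = ((∑ᶠ β : ℝ, analyticOrderNatAt riemannZeta (β + t * Complex.I) : ℕ) : ℕ∞)

/-- the liminf of `log (γ_(n+1) - γ_n) / log n`, where `γ_n = γ (n - 1)` and `log 0 = -∞` -/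
noncomputable def α (γ : ℕ → ℝ) : EReal :=
  Filter.liminf (fun n : ℕ => if γ (n + 1) = γ n then (⊥ : EReal) else
    ((Real.log (γ (n + 1) - γ n) / Real.log (n + 1) : ℝ) : EReal)) atTop

/-- **The theorem.** -/
theorem result :
    (∀ v : ℝ, Summable (pair v)) ∧
    (∀ c : ℝ, 0 < c → (Exp c → RiemannHypothesis ∧ Pairs c) ∧
      ((∀ n : ℕ, c ≠ 2 * n) → RiemannHypothesis → Pairs c → Exp c)) ∧
    (∀ γ : ℕ → ℝ, Ordinates γ → RiemannHypothesis → ∀ c : ℝ, 0 < c →
      (Exp c → Simple → ((-(4 / c) : ℝ) : EReal) ≤ α γ) ∧ (¬Exp c → α γ ≤ ((-(3 / c) : ℝ) : EReal))) := by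
  have hV : V = PM bc 0 1 := by
    funext δ
    unfold V PM
    simp_rw [sub_zero, mul_one]
    refine setLIntegral_congr_fun measurableSet_Ioi fun u hu => ?_
    have hu0 : (0 : ℝ) < u := hu
    have e : b u = bc u := by
      unfold bc
      rw [max_eq_left hu0.le]
      rfl
    show ENNReal.ofReal (δ * Real.exp (-δ * u) * b u ^ 2) = ENNReal.ofReal (δ * Real.exp (-δ * u) * bc u ^ 2)
    rw [e]
  have hE : ∀ c : ℝ, Exp c ↔ ExpAt (PM bc 0 1) c := fun c => by
    unfold Exp ExpAt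
    rw [hV]
  set e : Γ ≃ TI := Equiv.subtypeEquivRight fun t => by
    show 0 < t ∧ riemannZeta (1 / 2 + Complex.I * t) = 0 ↔ _
    rw [Z_zero_iff] with he
  have hw1 : ∀ t : Γ, 0 < w t := fun t => WW_pos (e t)
  have hs1 : Summable w := e.summable_iff.2 WW_summable
  refine ⟨fun v => PT_sum hw1 hs1 v, fun c hc => ?_, fun γ hγ hRH c hc => ?_⟩
  · rw [hE]
    exact zeta_expand_pairs hc
  · rw [hE]
    exact alpha_expand (g := γ) hγ hRH hc

end Pool.Agent.Results.MP_af3d17_nt.CloseOrdinates
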