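import Pool.Agent.Run7.h278.LG.Alpha

set_option autoImplicit false

/-!
# The order of the smallest gaps between the ordinates, and the rate of convergence of a mean square

Let `a(u) = e^(u/2) (∑_{n ≤ e^u} Λ(n) (1/n - e^(-u)) - u + 1 + γ)` and `V δ = δ ∫_0^∞ e^(-δ u) a(u)² du`.  The mean
square `V δ` is finite and converges for `δ → 0+` with a rate `O(δ^c)` for some `c > 0` exactly if the Riemann
hypothesis holds and the gaps between distinct ordinates up to `X` are at least a power of `X`.  So, with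
`α = liminf log (γ_(n+1) - γ_n) / log n`, the Riemann hypothesis and `α > -∞` hold exactly if `V` converges with such a
rate and all but finitely many zeros are simple; and the Riemann hypothesis, the simplicity of all zeros and `α > -∞`
hold together exactly if `V` converges with such a rate to the explicit number `8 λ_1 - 2 λ_2` (with Li's `λ_n`).
-/

namespace Pool.Agent.Results.MP_af3d17_nt.GapsAndRate

open Filter Topology MeasureTheory Set Run7.h278.LM Run7.h278.WL Run7.h278.LG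
open scoped ENNReal

/-- the positive ordinates of the zeros on the critical line -/
def Γ : Set ℝ := {t : ℝ | 0 < t ∧ riemannZeta (1 / 2 + Complex.I * t) = 0}

/-- the remainder in the mean value of the von Mangoldt function, at `x = e^u` -/
noncomputable def a (u : ℝ) : ℝ :=
  Real.exp (u / 2) * (∑ n ∈ Finset.Icc 1 ⌊Real.exp u⌋₊, ArithmeticFunction.vonMangoldt n * (1 / (n : ℝ) - Real.exp (-u)) -
    u + 1 + Real.eulerMascheroniConstant)

/-- the Abel mean of `a(u)²` -/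
noncomputable def V (δ : ℝ) : ℝ≥0∞ := ∫⁻ u in Ioi (0 : ℝ), ENNReal.ofReal (δ * Real.exp (-δ * u) * a u ^ 2)

/-- `V` is finite and converges to `L` with the rate `O(δ^c)` -/
def RateTo (L c : ℝ) : Prop := ∃ C : ℝ, ∀ δ : ℝ, 0 < δ → δ < 1 → V δ < ⊤ ∧ |(V δ).toReal - L| ≤ C * δ ^ c

/-- `V` is finite and converges with the rate `O(δ^c)` -/
def Rate (c : ℝ) : Prop := ∃ L : ℝ, RateTo L c

/-- the gaps between distinct elements of `Γ` up to `X` are at least `c X^(-A)` -/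
def Gap (A : ℝ) : Prop := ∃ c : ℝ, 0 < c ∧ ∀ X : ℝ, 1 ≤ X → ∀ t ∈ Γ, ∀ t' ∈ Γ, t < t' → t' ≤ X → c * X ^ (-A) ≤ t' - t

/-- all but finitely many of the zeros in the upper half plane are simple -/
def Simple : Prop := {s : ℂ | 0 < s.im ∧ riemannZeta s = 0 ∧ analyticOrderNatAt riemannZeta s ≠ 1}.Finite

/-- `γ 0 ≤ γ 1 ≤ ...` are the ordinates of the zeros in the upper half plane, repeated according to multiplicity -/
def Ordinates (γ : ℕ → ℝ) : Prop := Monotone γ ∧ (∀ n, 0 < γ n) ∧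
  ∀ t : ℝ, 0 < t → {n | γ n = t}.encard = ((∑ᶠ β : ℝ, analyticOrderNatAt riemannZeta (β + t * Complex.I) : ℕ) : ℕ∞)

/-- the liminf of `log (γ_(n+1) - γ_n) / log n`, where `γ_n = γ (n - 1)` and `log 0 = -∞` -/
noncomputable def α (γ : ℕ → ℝ) : EReal :=
  Filter.liminf (fun n : ℕ => if γ (n + 1) = γ n then (⊥ : EReal) else
    ((Real.log (γ (n + 1) - γ n) / Real.log (n + 1) : ℝ) : EReal)) atTop

/-- `ξ(s) = s (s - 1) Λ(s) / 2` with `Λ(s) = π^(-s/2) Γ(s/2) ζ(s)`, as an entire function -/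
noncomputable def xi (s : ℂ) : ℂ := (s * (s - 1) * completedRiemannZeta₀ s + 1) / 2

/-- Li's coefficients `λ_n = n · [zⁿ] log ξ(1 / (1 - z))` -/
noncomputable def li (n : ℕ) : ℝ :=
  n * (iteratedDeriv n (fun z : ℂ => Complex.log (xi (1 / (1 - z)))) 0).re / n.factorial

/-- the number `D = 8 λ_1 - 2 λ_2` -/
noncomputable def D : ℝ := 8 * li 1 - 2 * li 2

/-- **The theorem.** -/
theorem result :
    ((∃ c : ℝ, 0 < c ∧ Rate c) ↔ RiemannHypothesis ∧ ∃ A : ℝ, 0 < A ∧ Gap A) ∧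
    (∀ c : ℝ, 0 < c → c ≤ 1 → Rate c → RiemannHypothesis ∧ Gap (4 / c)) ∧
    (∀ A : ℝ, 0 ≤ A → RiemannHypothesis → Gap A → Rate (1 / (2 * (A + 1)))) ∧
    ∀ γ : ℕ → ℝ, Ordinates γ →
      ((∃ c : ℝ, 0 < c ∧ RateTo D c) ↔ RiemannHypothesis ∧
        (∀ s : ℂ, 0 < s.im → riemannZeta s = 0 → analyticOrderNatAt riemannZeta s = 1) ∧ ⊥ < α γ) ∧
      (((∃ c : ℝ, 0 < c ∧ Rate c) ∧ Simple) ↔ RiemannHypothesis ∧ ⊥ < α γ) ∧
      (∀ c : ℝ, 0 < c → c ≤ 1 → Rate c → Simple → ((-(4 / c) : ℝ) : EReal) ≤ α γ) ∧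
      (∀ A : ℝ, 0 < A → RiemannHypothesis → ((-A : ℝ) : EReal) < α γ → Simple ∧ Rate (1 / (2 * (A + 1)))) := by
  have hV : V = PM aa 0 1 := by
    funext δ
    unfold V PM
    simp_rw [sub_zero, mul_one]
    rfl
  have hR : ∀ c : ℝ, Rate c ↔ RateAt (PM aa 0 1) c := fun c => by
    unfold Rate RateTo RateAt
    rw [hV]
  obtain ⟨h1, h2⟩ := zeta_gap_exp
  have hG : ∀ A : ℝ, Gap A ↔ GapA TZ A := fun A => Iff.rfl
  refine ⟨?_, fun c hc hc1 h => h1 c hc hc1 ((hR c).1 h), fun A hA hRH h => (hR _).2 (h2 A hA hRH h), fun γ hγ => ?_⟩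
  · have h3 := zeta_gap
    constructor
    · rintro ⟨c, hc, h⟩
      obtain ⟨L, C, h⟩ := (hR c).1 h
      obtain ⟨hRH, A, c', hA, hc', h4⟩ := h3.1 ⟨L, c, C, hc, h⟩
      exact ⟨hRH, A, hA, c', hc', h4⟩
    · rintro ⟨hRH, A, hA, c', hc', h4⟩
      obtain ⟨L, c, C, hc, h⟩ := h3.2 ⟨hRH, A, c', hA, hc', h4⟩
      exact ⟨c, hc, (hR c).2 ⟨L, C, h⟩⟩
  · obtain ⟨q1, q2, q3⟩ := zeta_alpha (g := γ) hγ
    have q4 := zeta_alpha_simple (g := γ) hγ
    refine ⟨?_, ?_, fun c hc hc1 h => q1 c hc hc1 ((hR c).1 h), fun A hA hRH h => ?_⟩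
    · have hD : D = 8 * Run7.h278.LI.li 1 - 2 * Run7.h278.LI.li 2 := rfl
      have e : (∃ c : ℝ, 0 < c ∧ RateTo D c) ↔ ∃ c C : ℝ, 0 < c ∧ ∀ δ : ℝ, 0 < δ → δ < 1 →
          PM aa 0 1 δ < ⊤ ∧ |(PM aa 0 1 δ).toReal - (8 * Run7.h278.LI.li 1 - 2 * Run7.h278.LI.li 2)| ≤ C * δ ^ c := by
        unfold RateTo
        rw [hV, hD]
        constructor
        · rintro ⟨c, hc, C, h⟩
          exact ⟨c, C, hc, h⟩
        · rintro ⟨c, C, hc, h⟩
          exact ⟨c, hc, C, h⟩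
      rw [e]
      exact q4
    · have e : (∃ c : ℝ, 0 < c ∧ Rate c) ↔ ∃ c : ℝ, 0 < c ∧ RateAt (PM aa 0 1) c :=
        exists_congr fun c => and_congr_right fun _ => hR c
      rw [e]
      exact q3
    · obtain ⟨h3, h4⟩ := q2 A hA hRH h
      exact ⟨h3, (hR _).2 h4⟩

end Pool.Agent.Results.MP_af3d17_nt.GapsAndRate
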