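import Pool.Agent.Run7.h751.ZO.Y6
import Pool.Agent.Run7.h751.ZO.Y7

set_option autoImplicit false

/-!
# Gaps between the ordinates of the zeros of zeta relative to the moments of zeta next to the zeros

The zeros `ρ = β + iγ` with ordinate in `(T, 2T]` are weighted with `|ζ(1/2 + d + iγ)|^(2k)`, `d = d(T) → 0`,
`d log T / log² (1/d) → ∞`. Unconditionally, for every real `0 < k < 2`, and for every real `k > 0` when the zeros with
`|ζ(1/2 + d + iγ)| > (2d)^(-V)`, `V > k`, are left out, the simple zeros on the critical line whose ordinate has distance at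
least `η / log T` from the ordinates of all other zeros carry at least the share `(5 - 3c) / 2 - ε`, `(5 - 3c) / 2 = 0.5087…`,
of the weight of all zeros counted with multiplicity. For every `V > 0` at least `(2d)^(V² + ε) N` of these zeros, and at most
`(2d)^(V² - ε) N` zeros in all, have `|ζ(1/2 + d + iγ)| ≥ (2d)^(-V)`.
-/

namespace Pool.Agent.Results.MP_af3d17_nt.GapsInMomentMeasures

open Filter Topology

/-- the nontrivial zeros of zeta with ordinate in `(T, 2T]` -/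
def zeros (T : ℝ) : Set ℂ := {s : ℂ | riemannZeta s = 0 ∧ 0 < s.re ∧ s.re < 1 ∧ T < s.im ∧ s.im ≤ 2 * T}

/-- the multiplicity of a zero -/
noncomputable def mult (s : ℂ) : ℕ := analyticOrderNatAt riemannZeta s

/-- the simple zeros on the critical line with ordinate in `(T, 2T]` whose ordinate has distance at least `η / log T` from the
ordinate of every other nontrivial zero with ordinate in `(T, 2T]` -/
def apart (η T : ℝ) : Set ℂ :=
  {s : ℂ | s ∈ zeros T ∧ s.re = 1 / 2 ∧ deriv riemannZeta s ≠ 0 ∧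
    ∀ ρ ∈ zeros T, ρ ≠ s → η / Real.log T ≤ |ρ.im - s.im|}

/-- the number of the zeros, with multiplicity -/
noncomputable def N (T : ℝ) : ℝ := ∑ᶠ s ∈ zeros T, (mult s : ℝ)

/-- the weight of all zeros, with multiplicity -/
noncomputable def All (w : ℝ → ℝ) (T : ℝ) : ℝ := ∑ᶠ s ∈ zeros T, (mult s : ℝ) * w s.im

/-- the weight of the zeros in `apart` -/
noncomputable def Apart (η : ℝ) (w : ℝ → ℝ) (T : ℝ) : ℝ := ∑ᶠ s ∈ apart η T, w s.im

/-- the modulus of zeta at distance `d` from the critical line and height `t` -/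
noncomputable def z (d t : ℝ) : ℝ := ‖riemannZeta (1 / 2 + d + t * Complex.I)‖

open Classical in
/-- the weight `|ζ(1/2 + d + it)|^(2k)`, replaced by zero where the modulus is larger than `c` -/
noncomputable def weight (k c d t : ℝ) : ℝ := if z d t ≤ c then z d t ^ (2 * k) else 0

/-- the number of the zeros with `|ζ(1/2 + d + iγ)| ≥ c`, with multiplicity -/
noncomputable def Large (c d T : ℝ) : ℝ := ∑ᶠ s ∈ {s : ℂ | s ∈ zeros T ∧ c ≤ z d s.im}, (mult s : ℝ)

/-- the number of the zeros in `apart` with `|ζ(1/2 + d + iγ)| ≥ c` -/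
noncomputable def LargeApart (η c d T : ℝ) : ℝ := ({s ∈ apart η T | c ≤ z d s.im}.ncard : ℝ)

/-- the Montgomery-Taylor constant `1.3274…` -/
noncomputable def c : ℝ := 1 / 2 + Real.cot (1 / Real.sqrt 2) / Real.sqrt 2

/-- the admissible distances -/
structure Admissible (d : ℝ → ℝ) : Prop where
  pos : ∀ᶠ T : ℝ in atTop, 0 < d T
  tendsto_zero : Tendsto d atTop (𝓝 0)
  slow : Tendsto (fun T : ℝ => d T * Real.log T / Real.log (1 / d T) ^ 2) atTop atTop

/-- the share, for weights which depend on `T` -/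
def Share (w : ℝ → ℝ → ℝ) : Prop := ∀ ε : ℝ, 0 < ε → ∃ η : ℝ, 0 < η ∧ ∀ᶠ T : ℝ in atTop,
  0 < All (w T) T ∧ ((5 - 3 * c) / 2 - ε) * All (w T) T ≤ Apart η (w T) T

open Run7.h751.ZM Run7.h751.ZO Pool.Agent.N748.MG

lemma zeros_eq (T : ℝ) : zeros T = H370.zset riemannZeta T (2 * T) := by
  ext s
  simp only [zeros, H370.zset, Set.mem_ofPred_eq]
  tauto

lemma sum_eq {T : ℝ} (hT : 1 ≤ T) (f : ℂ → ℝ) : ∑ᶠ s ∈ zeros T, f s = ∑ s ∈ Zs T, f s := by
  rw [zeros_eq]
  exact H370.finsum_Zf H370.good_zeta hT f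

open Classical in
lemma sum_filter_eq {T : ℝ} (hT : 1 ≤ T) (P : ℂ → Prop) (f : ℂ → ℝ) :
    ∑ᶠ s ∈ {s : ℂ | s ∈ zeros T ∧ P s}, f s = ∑ s ∈ (Zs T).filter P, f s := by
  have e : {s : ℂ | s ∈ zeros T ∧ P s} = (((Zs T).filter P : Finset ℂ) : Set ℂ) := by
    ext s
    simp only [Finset.coe_filter, Set.mem_ofPred_eq]
    rw [mem_Zs hT, zeros_eq]
  rw [e, finsum_mem_coe_finset]

lemma mem_zeros {T : ℝ} (hT : 1 ≤ T) {s : ℂ} : s ∈ zeros T ↔ s ∈ Zs T := by
  rw [mem_Zs hT, zeros_eq]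

lemma sub_apart {η T : ℝ} (hT : 16 ≤ T) (hη : η ≤ 1) {s : ℂ} (hs : s ∈ Run7.h751.ZO.ZO η T) : s ∈ apart η T := by
  have hT1 : 1 ≤ T := by linarith
  have h1 : s ∈ Zs T := ZO_sub _ _ hs
  unfold Run7.h751.ZO.ZO at hs
  rw [Finset.mem_filter, Pool.Agent.Q97.UM.mem_ZI_iff hT hη] at hs
  obtain ⟨⟨h2, -, -, -, h3, -⟩, h4⟩ := hs
  refine ⟨(mem_zeros hT1).2 h1, h2, h3, fun ρ hρ hne => ?_⟩
  have := h4 ρ ((mem_zeros hT1).1 hρ) hne
  rwa [abs_sub_comm] at this

open Classical in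
lemma apart_eq {η T : ℝ} (hT : 1 ≤ T) : apart η T = (((Zs T).filter (fun s => s ∈ apart η T) : Finset ℂ) : Set ℂ) := by
  ext s
  simp only [Finset.coe_filter, Set.mem_ofPred_eq]
  constructor
  · intro h
    exact ⟨(mem_zeros hT).1 h.1, h⟩
  · rintro ⟨-, h⟩
    exact h

lemma weight_nn (k c δ t : ℝ) : 0 ≤ weight k c δ t := by
  classical
  unfold weight
  split_ifs
  · exact Real.rpow_nonneg (norm_nonneg _) _
  · exact le_rfl

open Classical in
lemma wsum (F : Finset ℂ) (k c δ : ℝ) (g : ℂ → ℝ) : ∑ s ∈ F, g s * weight k c δ s.im =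
    ∑ s ∈ F.filter (fun s => mz δ s.im ≤ c), g s * mz δ s.im ^ (2 * k) := by
  rw [Finset.sum_filter]
  refine Finset.sum_congr rfl fun s _ => ?_
  unfold weight
  have hz : z δ s.im = mz δ s.im := rfl
  rw [hz]
  by_cases h : mz δ s.im ≤ c
  · rw [if_pos h, if_pos h]
  · rw [if_neg h, if_neg h, mul_zero]

open Classical in
lemma wsum1 (F : Finset ℂ) (k c δ : ℝ) : ∑ s ∈ F, weight k c δ s.im =
    ∑ s ∈ F.filter (fun s => mz δ s.im ≤ c), mz δ s.im ^ (2 * k) := by
  have := wsum F k c δ (fun _ => 1)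
  simpa only [one_mul] using this

lemma apart_ge {η T : ℝ} (hT : 16 ≤ T) (hη : η ≤ 1) {w : ℝ → ℝ} (hw : ∀ t, 0 ≤ w t) :
    ∑ s ∈ Run7.h751.ZO.ZO η T, w s.im ≤ Apart η w T := by
  classical
  unfold Apart
  rw [apart_eq (by linarith), finsum_mem_coe_finset]
  refine Finset.sum_le_sum_of_subset_of_nonneg (fun s hs => ?_) fun s _ _ => hw _
  exact Finset.mem_filter.2 ⟨ZO_sub _ _ hs, sub_apart hT hη hs⟩

theorem result : 0.5087 ≤ (5 - 3 * c) / 2 ∧ ∀ d : ℝ → ℝ, Admissible d →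
    (∀ k V : ℝ, 0 < k → k < V → Share fun T t => weight k ((2 * d T) ^ (-V)) (d T) t) ∧
    (∀ k : ℝ, 0 < k → k < 2 → Share fun T t => z (d T) t ^ (2 * k)) ∧
    (∀ V ε : ℝ, 0 < V → 0 < ε → ∃ η : ℝ, 0 < η ∧ ∀ᶠ T : ℝ in atTop,
      (2 * d T) ^ (V ^ 2 + ε) * N T ≤ LargeApart η ((2 * d T) ^ (-V)) (d T) T ∧
      Large ((2 * d T) ^ (-V)) (d T) T ≤ (2 * d T) ^ (V ^ 2 - ε) * N T) := by
  classical
  have hc : (5 - 3 * c) / 2 = 2 - cO := by
    have h : c = H370.cMTinv := rfl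
    unfold cO
    rw [h]
    ring
  refine ⟨?_, fun d hd => ?_⟩
  · have h1 : c ≤ 1.3274995 := Pool.Agent.Q97.UM.cMT_strict
    norm_num at h1 ⊢
    linarith
  have hA : Ad d := ⟨hd.pos, hd.tendsto_zero, hd.slow⟩
  refine ⟨fun k V hk hV ε hε => ?_, fun k hk h2 ε hε => ?_, fun V ε hV hε => ?_⟩
  · obtain ⟨η, hη, hη1, h⟩ := share_to inp hA hk hV hε
    refine ⟨η, hη, ?_⟩
    filter_upwards [h, eventually_ge_atTop 16] with T hT hT16
    obtain ⟨a1, a2, -⟩ := hT
    have hT1 : 1 ≤ T := by linarith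
    have e1 : All (fun t => weight k ((2 * d T) ^ (-V)) (d T) t) T =
        ∑ s ∈ Zt V (d T) T, mu s * mz (d T) s.im ^ (2 * k) := by
      unfold All
      rw [sum_eq hT1]
      exact wsum _ _ _ _ mu
    rw [e1, hc]
    refine ⟨a1, a2.trans ?_⟩
    rw [← wsum1]
    exact apart_ge hT16 hη1 (w := fun t => weight k ((2 * d T) ^ (-V)) (d T) t) fun t => weight_nn _ _ _ _
  · obtain ⟨η, hη, hη1, h⟩ := share_fo inp hA hk h2 hε
    refine ⟨η, hη, ?_⟩
    filter_upwards [h, eventually_ge_atTop 16] with T hT hT16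
    obtain ⟨a1, a2, -⟩ := hT
    have hT1 : 1 ≤ T := by linarith
    have e1 : All (fun t => z (d T) t ^ (2 * k)) T = ∑ s ∈ Zs T, mu s * mz (d T) s.im ^ (2 * k) := by
      unfold All
      rw [sum_eq hT1]
      rfl
    rw [e1, hc]
    refine ⟨a1, a2.trans ?_⟩
    exact apart_ge hT16 hη1 (w := fun t => z (d T) t ^ (2 * k)) fun t => Real.rpow_nonneg (norm_nonneg _) _
  · obtain ⟨η, hη, hη1, h⟩ := large_loo inp hA hV hε
    refine ⟨η, hη, ?_⟩
    filter_upwards [h, large_up inp hA hV hε, eventually_ge_atTop 16] with T a1 a2 hT16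
    have hT1 : 1 ≤ T := by linarith
    have eN : N T = ∑ s ∈ Zs T, mu s := sum_eq hT1 _
    refine ⟨?_, ?_⟩
    · rw [eN]
      refine a1.trans ?_
      unfold LargeApart
      have hfin : {s ∈ apart η T | (2 * d T) ^ (-V) ≤ z (d T) s.im}.Finite := by
        refine Set.Finite.subset (Zs T).finite_toSet ?_
        rintro s ⟨hs, -⟩
        exact (mem_zeros hT1).1 hs.1
      have hsub : (((Run7.h751.ZO.ZO η T).filter (fun s => (2 * d T) ^ (-V) ≤ mz (d T) s.im) : Finset ℂ) : Set ℂ) ⊆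
          {s ∈ apart η T | (2 * d T) ^ (-V) ≤ z (d T) s.im} := by
        intro s hs
        rw [Finset.mem_coe, Finset.mem_filter] at hs
        exact ⟨sub_apart hT16 hη1 hs.1, hs.2⟩
      have h3 := Set.ncard_le_ncard hsub hfin
      rw [Set.ncard_coe_finset] at h3
      exact_mod_cast h3
    · unfold Large
      rw [sum_filter_eq hT1, eN]
      exact a2

end Pool.Agent.Results.MP_af3d17_nt.GapsInMomentMeasures
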