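import Pool.Agent.Run7.h613.NG.Iso
import Pool.Agent.Results.MP_af3d17_nt.OrdinateGaps

/-!
# Gaps of the mean order in EVERY short interval near typical numbers

No hypothesis is assumed. Let `0 < η < 1`, `ε > 0` and let `c(h) = h/2 + cot(h/√2)/√2`. There are `d, D > 0`, `s < 1`, `κ > 0`
and a set `S` of integers with `O(X ^ (s + δ))` elements up to `X`, for every `δ > 0`, such that for all large real `T` with
integral part outside `S` EVERY interval `(a, b]` of length at least `T ^ η` in `[T - T ^ (η + κ), T + T ^ (η + κ)]` has the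
following properties, `N` being the number of nontrivial zeros of zeta with ordinate in `(a, b]`: at least
`(2 - c((1 + η)/2) - ε) N` of the consecutive gaps satisfy `d / log T ≤ γ_{n+1} - γ_n ≤ D / log T`, and at least
`((5 - 3 c((1 + η)/2)) / 2 - ε) N` of the zeros are simple, on the critical line, and have distance at least `d / log T` from
the ordinates of all other zeros. For arbitrary intervals this is a starting theorem with `c(η)` in place of `c((1 + η)/2)`;
the proportion `2 - c(η)` is positive only for `η > 0.55…`, and `2 - c((1 + η)/2)` is positive for `η > 0.10…`.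

So this holds near the values of generic linear forms, at the powers of almost every number and at the denominators of the
convergents of almost every number.
-/

set_option autoImplicit false

open Filter Topology MeasureTheory

namespace Pool.Agent.Results.MP_af3d17_nt.GapsOfMeanOrder

open Run7.h613.NG (Typical Generic)

/-- the nontrivial zeros of zeta -/
def zeros : Set ℂ := {s : ℂ | riemannZeta s = 0 ∧ 0 < s.re ∧ s.re < 1}

/-- the number of nontrivial zeros with ordinate in `(T₁, T₂]`, counted with multiplicity -/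
noncomputable def N (T₁ T₂ : ℝ) : ℕ :=
  ∑ᶠ s ∈ {s ∈ zeros | T₁ < s.im ∧ s.im ≤ T₂}, analyticOrderNatAt riemannZeta s

/-- the `n`-th positive ordinate `γ_n` (`n ≥ 1`), in nondecreasing order and repeated according to multiplicity: the least `t`
with at least `n` zeros in `(0, t]` -/
noncomputable def gam (n : ℕ) : ℝ := sInf {t : ℝ | n ≤ N 0 t}

/-- the `n ≥ 1` with `T₁ < γ_n ≤ T₂` and `d ≤ γ_{n+1} - γ_n ≤ D` -/
def normal (T₁ T₂ d D : ℝ) : Set ℕ :=
  {n : ℕ | 1 ≤ n ∧ T₁ < gam n ∧ gam n ≤ T₂ ∧ d ≤ gam (n + 1) - gam n ∧ gam (n + 1) - gam n ≤ D}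

/-- the `t ∈ (T₁, T₂]` such that `1/2 + it` is a simple zero and the ordinates of all other nontrivial zeros have distance at
least `d` from `t` -/
def lone (T₁ T₂ d : ℝ) : Set ℝ :=
  {t : ℝ | T₁ < t ∧ t ≤ T₂ ∧ riemannZeta (1 / 2 + Complex.I * t) = 0 ∧
    deriv riemannZeta (1 / 2 + Complex.I * t) ≠ 0 ∧ ∀ s ∈ zeros, s ≠ 1 / 2 + Complex.I * t → d ≤ |s.im - t|}

/-- the constant `c(h) = h/2 + cot(h/√2)/√2` -/
noncomputable def c (h : ℝ) : ℝ := h / 2 + Real.cot (h / Real.sqrt 2) / Real.sqrt 2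

/-- every interval `(a, b]` of length at least `T ^ η` in `[T - T ^ (η + κ), T + T ^ (η + κ)]` has at least `p N(a, b)` indices
with a gap between `d / log T` and `D / log T` and at least `p' N(a, b)` lone zeros -/
def Good (η κ p p' d D T : ℝ) : Prop :=
  ∀ a b : ℝ, T - T ^ (η + κ) ≤ a → b ≤ T + T ^ (η + κ) → T ^ η ≤ b - a →
    p * (N a b : ℝ) ≤ ((normal a b (d / Real.log T) (D / Real.log T)).ncard : ℝ) ∧
    p' * (N a b : ℝ) ≤ ((lone a b (d / Real.log T)).ncard : ℝ)

theorem normal_finite (T₁ T₂ d D : ℝ) : (normal T₁ T₂ d D).Finite :=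
  (OrdinateGaps.wide_finite T₁ T₂ d).subset fun _ ⟨h1, h2, h3, h4, _⟩ => ⟨h1, h2, h3, h4⟩

theorem lone_finite (T₁ T₂ d : ℝ) (h : 0 < T₁) : (lone T₁ T₂ d).Finite := by
  have hinj : Function.Injective fun t : ℝ => (1 / 2 + Complex.I * t : ℂ) := by
    intro a b hab
    have := congrArg Complex.im hab
    simpa using this
  refine Set.Finite.of_finite_image ((H370.zset_finite' H370.good_zeta T₁ T₂ h).subset ?_) hinj.injOn
  rintro s ⟨t, ⟨h1, h2, h3, h4, h5⟩, rfl⟩
  refine ⟨?_, ?_, ?_, ?_, h3⟩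
  · simp
  · simp; norm_num
  · simpa using h1
  · simpa using h2

open Pool.Agent.Results.MP_6bc78b_nt

lemma N_rfl (a b : ℝ) : N a b = OrdinateGaps.N a b := rfl

lemma normal_sub {a b d D d' D' : ℝ} (h1 : d' ≤ d) (h2 : D ≤ D') : OrdinateGaps.normal a b d D ⊆ normal a b d' D' :=
  fun _ ⟨k1, k2, k3, k4, k5⟩ => ⟨k1, k2, k3, h1.trans k4, k5.trans h2⟩

lemma lone_sub {a b d d' : ℝ} (h1 : d' ≤ d) : OrdinateGaps.lone a b d ⊆ lone a b d' :=
  fun _ ⟨k1, k2, k3, k4, k5⟩ => ⟨k1, k2, k3, k4, fun s hs hne => h1.trans (k5 s hs hne)⟩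

/-- the deterministic part -/
lemma window {T a b δ P e : ℝ} (hT : 32 ≤ T) (ha : T / 2 ≤ a) (hab : a ≤ b) (hb : b ≤ 2 * T) (hδ : 0 < δ) (he : 0 < e)
    (he1 : e ≤ 1) (hJ : P * (N a b : ℝ) ≤ ((IsolatedSimpleZeros.isolated a b (δ / Real.log a)).ncard : ℝ))
    (hN1 : 16 / e ≤ (N a b : ℝ)) (hN2 : (b - a) * Real.log a ≤ 4 * Real.pi * (N a b : ℝ)) :
    (P - e) * (N a b : ℝ) ≤
      ((normal a b (δ * (e / 4) / 2 / Real.log T) (128 * Real.pi / e / Real.log T)).ncard : ℝ) ∧
    ((3 * P - 1) / 2 - e) * (N a b : ℝ) ≤ ((lone a b (δ * (e / 4) / 2 / Real.log T)).ncard : ℝ) := by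
  have ha16 : 16 ≤ a := by linarith
  have hpi := Real.pi_pos
  have hL : 0 < Real.log a := Real.log_pos (by linarith)
  have hLT : 0 < Real.log T := Real.log_pos (by linarith)
  have hl1 : Real.log a ≤ 2 * Real.log T := by
    have h5 : Real.log a ≤ Real.log (T ^ 2) := Real.log_le_log (by linarith) (by nlinarith)
    rwa [Real.log_pow, Nat.cast_ofNat] at h5
  have hl2 : Real.log T ≤ 2 * Real.log a := by
    have h5 : Real.log T ≤ Real.log (a ^ 2) := Real.log_le_log (by linarith) (by nlinarith)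
    rwa [Real.log_pow, Nat.cast_ofNat] at h5
  have hη0 : 0 < δ * (e / 4) := by positivity
  have e1 : a + (b - a) = b := by ring
  have a3 := OrdinateGaps.core (T := a) (H := b - a) (δ := δ) (P := P) (η := δ * (e / 4)) (by linarith) hδ hη0
    (by nlinarith) (by rw [e1]; exact hJ)
  rw [e1] at a3
  have a0 : ((OrdinateGaps.far a b (δ * (e / 4) / Real.log a)).ncard : ℝ) ≤
      (OrdinateGaps.wide a b (δ * (e / 4) / Real.log a)).ncard := by
    exact_mod_cast OrdinateGaps.far_le_wide (by linarith)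
  have a8 := OrdinateGaps.wide_le (T₁ := a) (T₂ := b) (d := δ * (e / 4) / Real.log a)
    (D := 64 * Real.pi / e / Real.log a) hab (by positivity)
  have a4 : δ * (e / 4) / δ = e / 4 := by field_simp
  rw [a4, ← N_rfl] at a3
  have a5 : (16 : ℝ) ≤ (N a b : ℝ) * e := by rwa [div_le_iff₀ he] at hN1
  set n := (N a b : ℝ) with hn
  have hn0 : 0 ≤ n := Nat.cast_nonneg _
  have a9 : (b - a) / (64 * Real.pi / e / Real.log a) ≤ n * e / 16 := by
    rw [div_le_iff₀ (by positivity)]
    have : n * e / 16 * (64 * Real.pi / e / Real.log a) = 4 * Real.pi * n / Real.log a := by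
      field_simp
      ring
    rw [this, le_div_iff₀ hL]
    exact hN2
  have c1 : δ * (e / 4) / 2 / Real.log T ≤ δ * (e / 4) / Real.log a := by
    rw [div_div, div_le_div_iff₀ (by positivity) hL]
    nlinarith
  have c2 : 64 * Real.pi / e / Real.log a ≤ 128 * Real.pi / e / Real.log T := by
    rw [div_le_div_iff₀ hL hLT]
    have : 128 * Real.pi / e * Real.log a = 64 * Real.pi / e * (2 * Real.log a) := by ring
    rw [this]
    exact mul_le_mul_of_nonneg_left hl2 (by positivity)
  have b1 : ((OrdinateGaps.normal a b (δ * (e / 4) / Real.log a) (64 * Real.pi / e / Real.log a)).ncard : ℝ) ≤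
      ((normal a b (δ * (e / 4) / 2 / Real.log T) (128 * Real.pi / e / Real.log T)).ncard : ℝ) := by
    exact_mod_cast Set.ncard_le_ncard (normal_sub c1 c2) (normal_finite _ _ _ _)
  have b2 : ((OrdinateGaps.lone a b (δ * (e / 4) / Real.log a)).ncard : ℝ) ≤
      ((lone a b (δ * (e / 4) / 2 / Real.log T)).ncard : ℝ) := by
    exact_mod_cast Set.ncard_le_ncard (lone_sub c1) (lone_finite _ _ _ (by linarith))
  constructor
  · refine le_trans ?_ b1
    have b3 : (P - e) * n = (P - e / 4) * n - 3 / 4 * (n * e) := by ring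
    rw [b3]
    linarith [a3.1]
  · refine le_trans ?_ b2
    have b3 : ((3 * P - 1) / 2 - e) * n = (3 * P - 1) / 2 * n - n * e := by ring
    rw [b3]
    linarith [a3.2]

/-- **Gaps of the mean order in EVERY short interval near typical numbers.** -/
theorem result (η ε : ℝ) (h0 : 0 < η) (h1 : η < 1) (hε : 0 < ε) :
    (∃ s κ d D : ℝ, 0 < s ∧ s < 1 ∧ 0 < κ ∧ 0 < d ∧ 0 < D ∧
      Typical s (Good η κ (2 - c ((1 + η) / 2) - ε) ((5 - 3 * c ((1 + η) / 2)) / 2 - ε) d D) ∧
      Generic (Good η κ (2 - c ((1 + η) / 2) - ε) ((5 - 3 * c ((1 + η) / 2)) / 2 - ε) d D)) ∧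
    c ((1 + η) / 2) ≤ 2 / (1 + η) + (1 + η) / 6 := by
  constructor
  swap
  · have := H295SI.cc_le ((1 + η) / 2) (by linarith) (by linarith)
    refine this.trans (le_of_eq ?_)
    have h2 : (1 + η) ≠ 0 := by linarith
    field_simp
    ring
  obtain ⟨e, he⟩ : ∃ e : ℝ, e = min ε 1 / 2 := ⟨_, rfl⟩
  have hmin : 0 < min ε 1 := lt_min hε one_pos
  have he0 : 0 < e := by rw [he]; positivity
  have he1 : e ≤ 1 / 2 := by
    have := min_le_right ε 1
    rw [he]; linarith
  have he2 : e ≤ ε / 2 := by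
    have := min_le_left ε 1
    rw [he]; linarith
  obtain ⟨s, κ, hs0, hs1, hκ, hκ1, hT⟩ := Run7.h613.NG.iso_typical H370.good_zeta Pool.Agent.TH822.AA.bz_z h0 h1
    (ε := e / 4) (d := e / 300) (by positivity) (by positivity) (by linarith)
  obtain ⟨T1, hT1, hN⟩ := OrdinateGaps.N_large (h := η / 2) (by positivity) (16 / e)
  have ev1 : ∀ᶠ T : ℝ in atTop, (4 : ℝ) ≤ T ^ (1 - (η + κ)) := (tendsto_rpow_atTop (by linarith)).eventually_ge_atTop _
  obtain ⟨T2, hT2⟩ := (ev1.and (eventually_ge_atTop (max 32 (2 * T1)))).exists_forall_of_atTop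
  have H : Typical s (Good η κ (2 - c ((1 + η) / 2) - ε) ((5 - 3 * c ((1 + η) / 2)) / 2 - ε)
      (e / 300 / 2 * (e / 4) / 2) (128 * Real.pi / e)) := by
    refine hT.mono_large T2 fun T hTT hE a b ha hb hab => ?_
    obtain ⟨g1, g2⟩ := hT2 T hTT
    have hT32 : 32 ≤ T := (le_max_left _ _).trans g2
    have hTT1 : 2 * T1 ≤ T := (le_max_right _ _).trans g2
    have hTpos : 0 < T := by linarith
    have g3 : T ^ (η + κ) ≤ T / 4 := by
      have h5 : T ^ (1 - (η + κ)) * T ^ (η + κ) = T := by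
        rw [← Real.rpow_add hTpos]
        simp
      have h6 := mul_le_mul_of_nonneg_right g1 (Real.rpow_nonneg hTpos.le (η + κ))
      rw [h5] at h6
      linarith
    have ha2 : T / 2 ≤ a := by linarith
    have hb2 : b ≤ 2 * T := by linarith
    have hab0 : 0 < b - a := lt_of_lt_of_le (Real.rpow_pos_of_pos hTpos _) hab
    obtain ⟨ha1, h5⟩ := hE a b ha hb hab
    have hpow : a ^ (η / 2) ≤ b - a := by
      refine le_trans ?_ hab
      have k1 : a ≤ T ^ (2 : ℝ) := by
        rw [Real.rpow_two]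
        nlinarith
      calc a ^ (η / 2) ≤ (T ^ (2 : ℝ)) ^ (η / 2) := Real.rpow_le_rpow (by linarith) k1 (by positivity)
        _ = T ^ η := by
          rw [← Real.rpow_mul hTpos.le]
          congr 1
          ring
    have k2 := hN a (by linarith) (b - a) hpow (by linarith)
    have e1 : a + (b - a) = b := by ring
    rw [e1] at k2
    have hLa : 0 < Real.log a := Real.log_pos (by linarith)
    have hlb : Real.log b ≤ 2 * Real.log a := by
      have h5 : Real.log b ≤ Real.log (a ^ 2) := Real.log_le_log (by linarith) (by nlinarith)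
      rwa [Real.log_pow, Nat.cast_ofNat] at h5
    have k3 := Run7.h613.NG.NI_le_isoA H370.good_zeta (a := a) (b := b) (d := e / 300) (L := 2 * Real.log a) (by linarith)
      (by positivity) hlb
    have k4 : e / 300 / (2 * Real.log a) = e / 300 / 2 / Real.log a := by rw [← div_div]
    rw [k4] at k3
    have k5 : (Run7.h613.NG.NI riemannZeta (e / 300) a b : ℝ) ≤
        ((IsolatedSimpleZeros.isolated a b (e / 300 / 2 / Real.log a)).ncard : ℝ) := by
      exact_mod_cast k3.trans (IsolatedSimpleZeros.isoA_le ha1)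
    have hn0 : (0 : ℝ) ≤ N a b := Nat.cast_nonneg _
    have k6 : (2 - c ((1 + η) / 2) - e / 2) * (N a b : ℝ) ≤
        ((IsolatedSimpleZeros.isolated a b (e / 300 / 2 / Real.log a)).ncard : ℝ) := by
      refine le_trans ?_ (h5.trans k5)
      rw [N_rfl, OrdinateGaps.N_eq]
      refine mul_le_mul_of_nonneg_right ?_ (Nat.cast_nonneg _)
      have k7 : 74 * (e / 300) ^ 2 ≤ e / 4 := by nlinarith
      have k8 : c ((1 + η) / 2) = H295SI.cc ((1 + η) / 2) := rfl
      rw [k8]
      linarith
    obtain ⟨r1, r2⟩ := window (T := T) (δ := e / 300 / 2) (e := e) hT32 ha2 (by linarith) hb2 (by positivity) he0 (by linarith)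
      k6 (by rw [N_rfl]; exact k2.1) (by rw [N_rfl]; exact k2.2)
    refine ⟨le_trans ?_ r1, le_trans ?_ r2⟩
    · refine mul_le_mul_of_nonneg_right ?_ hn0
      linarith
    · refine mul_le_mul_of_nonneg_right ?_ hn0
      linarith
  exact ⟨s, κ, _, _, hs0, hs1, hκ, by positivity, by positivity, H, Run7.h613.NG.typical_generic hs0.le hs1 H⟩

end Pool.Agent.Results.MP_af3d17_nt.GapsOfMeanOrder
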